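import Mathlib

/-!
MP_78b682_nt: the Liouville function, logarithmic averages and correlations, as in the problem file.
-/

open Finset

namespace Pool.Agent.Lib.MP_78b682_nt

/-- The Liouville function, equal to `0` at the integers `n ≤ 0`. -/
noncomputable def liou (n : ℤ) : ℝ :=
  if n ≤ 0 then 0 else (-1) ^ (ArithmeticFunction.cardFactors n.toNat)

/-- The logarithmic average of `f n` over `1 ≤ n ≤ X`. -/
noncomputable def logAvg (X : ℝ) (f : ℕ → ℝ) : ℝ :=
  (∑ n ∈ Icc 1 ⌊X⌋₊, f n / n) / (∑ n ∈ Icc 1 ⌊X⌋₊, (1 : ℝ) / n)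

/-- The correlation `C_X(h_1, ..., h_k)`, `H = {h_1, ..., h_k}`. -/
noncomputable def corr (H : Finset ℤ) (X : ℝ) : ℝ :=
  logAvg X (fun n => ∏ h ∈ H, liou ((n : ℤ) + h))

end Pool.Agent.Lib.MP_78b682_nt
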